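import Mathlib

set_option autoImplicit false

namespace Pool.Agent.SmallClones

open Finset

/-- Two axis-parallel squares (lower left corner, side) separated by a vertical or horizontal line. -/
def Sep (q : ℝ × ℝ) (p : ℝ) (q' : ℝ × ℝ) (p' : ℝ) : Prop :=
  q.1 + p ≤ q'.1 ∨ q'.1 + p' ≤ q.1 ∨ q.2 + p ≤ q'.2 ∨ q'.2 + p' ≤ q.2

theorem Sep.symm {q : ℝ × ℝ} {p : ℝ} {q' : ℝ × ℝ} {p' : ℝ} (h : Sep q p q' p') :
    Sep q' p' q p := by
  unfold Sep at *
  tauto

/-- a row of intervals -/
theorem row {ι : Type*} [DecidableEq ι] (p : ι → ℝ) (hp : ∀ i, 0 < p i) (t : Finset ι) :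
    ∃ x : ι → ℝ, (∀ i ∈ t, 0 ≤ x i ∧ x i + p i ≤ ∑ k ∈ t, p k) ∧
      ∀ i ∈ t, ∀ j ∈ t, i ≠ j → x i + p i ≤ x j ∨ x j + p j ≤ x i := by
  induction t using Finset.induction_on with
  | empty => exact ⟨fun _ => 0, by simp, by simp⟩
  | insert k t hk ih =>
    obtain ⟨x, hx, hd⟩ := ih
    refine ⟨fun i => if i = k then ∑ j ∈ t, p j else x i, ?_, ?_⟩
    · intro i hi
      rw [Finset.sum_insert hk]
      by_cases hik : i = k
      · subst hik
        simp only [if_true]
        exact ⟨Finset.sum_nonneg (fun j _ => (hp j).le), by linarith⟩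
      · have hit : i ∈ t := by
          rcases Finset.mem_insert.mp hi with h | h
          · exact absurd h hik
          · exact h
        simp only [hik, if_false]
        have := hx i hit
        have h2 := hp k
        exact ⟨this.1, by linarith [this.2]⟩
    · intro i hi j hj hij
      by_cases hik : i = k
      · subst hik
        have hjt : j ∈ t := by
          rcases Finset.mem_insert.mp hj with h | h
          · exact absurd h.symm hij
          · exact h
        have hji : j ≠ i := fun h => hij h.symm
        simp only [if_true, hji, if_false]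
        right
        exact (hx j hjt).2
      · have hit : i ∈ t := by
          rcases Finset.mem_insert.mp hi with h | h
          · exact absurd h hik
          · exact h
        by_cases hjk : j = k
        · subst hjk
          simp only [if_true, hik, if_false]
          left
          exact (hx i hit).2
        · have hjt : j ∈ t := by
            rcases Finset.mem_insert.mp hj with h | h
            · exact absurd h hjk
            · exact h
          simp only [hik, hjk, if_false]
          exact hd i hit j hjt hij

/-- an upper part of `s` that fills a row of length `a`: either everything fits, or the first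
item that does not fit is `j`. -/
theorem fill {ι : Type*} [DecidableEq ι] (p : ι → ℝ) (hp : ∀ i, 0 < p i) (a : ℝ) (ha : 0 ≤ a)
    (s : Finset ι) :
    ∃ t ⊆ s, (∑ k ∈ t, p k) ≤ a ∧ (t = s ∨ ∃ j ∈ s, j ∉ t ∧ a < (∑ k ∈ t, p k) + p j ∧
      (∀ i ∈ t, p j ≤ p i) ∧ ∀ i ∈ s, i ∉ t → p i ≤ p j) := by
  classical
  let good : Finset (Finset ι) := s.powerset.filter
    (fun t => (∑ k ∈ t, p k) ≤ a ∧ ∀ i ∈ t, ∀ j ∈ s, j ∉ t → p j ≤ p i)
  have hne : good.Nonempty := by
    refine ⟨∅, ?_⟩
    simp only [good, Finset.mem_filter, Finset.mem_powerset, Finset.empty_subset, true_and]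
    simp [ha]
  obtain ⟨t, ht, hmax⟩ := Finset.exists_max_image good (fun t => t.card) hne
  simp only [good, Finset.mem_filter, Finset.mem_powerset] at ht
  obtain ⟨hts, hta, htu⟩ := ht
  refine ⟨t, hts, hta, ?_⟩
  by_cases hEq : t = s
  · exact Or.inl hEq
  right
  have hne2 : (s \ t).Nonempty := by
    rw [Finset.sdiff_nonempty]
    intro h
    exact hEq (Finset.Subset.antisymm hts h)
  obtain ⟨j, hj, hjmax⟩ := Finset.exists_max_image (s \ t) p hne2
  rw [Finset.mem_sdiff] at hj
  refine ⟨j, hj.1, hj.2, ?_, fun i hi => htu i hi j hj.1 hj.2, fun i hi hit =>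
    hjmax i (Finset.mem_sdiff.mpr ⟨hi, hit⟩)⟩
  by_contra hcon
  push Not at hcon
  have hmem : insert j t ∈ good := by
    simp only [good, Finset.mem_filter, Finset.mem_powerset]
    refine ⟨?_, ?_, ?_⟩
    · intro x hx
      rcases Finset.mem_insert.mp hx with h | h
      · rw [h]; exact hj.1
      · exact hts h
    · rw [Finset.sum_insert hj.2]
      linarith
    · intro i hi k hk hkt
      have hkt' : k ∉ t := fun h => hkt (Finset.mem_insert_of_mem h)
      rcases Finset.mem_insert.mp hi with h | h
      · rw [h]
        exact hjmax k (Finset.mem_sdiff.mpr ⟨hk, hkt'⟩)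
      · exact htu i h k hk hkt'
  have := hmax _ hmem
  rw [Finset.card_insert_of_notMem hj.2] at this
  omega

/-- Meir-Moser type shelf packing of squares in a rectangle. -/
theorem shelf {ι : Type*} [DecidableEq ι] (p : ι → ℝ) (hp : ∀ i, 0 < p i) (a : ℝ) :
    ∀ (n : ℕ) (s : Finset ι), s.card ≤ n → ∀ (M b x0 y0 : ℝ), (∀ i ∈ s, p i ≤ M) → M ≤ a →
      0 ≤ M →
      (∑ i ∈ s, p i ^ 2) ≤ (a - M) * (b - M) →
      ∃ q : ι → ℝ × ℝ, (∀ i ∈ s, x0 ≤ (q i).1 ∧ (q i).1 + p i ≤ x0 + a ∧ y0 ≤ (q i).2 ∧
        (q i).2 + p i ≤ y0 + b) ∧ ∀ i ∈ s, ∀ j ∈ s, i ≠ j → Sep (q i) (p i) (q j) (p j) := by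
  intro n
  induction n with
  | zero =>
    intro s hs M b x0 y0 _ _ _ _
    have : s = ∅ := Finset.card_eq_zero.mp (by omega)
    subst this
    exact ⟨fun _ => (0, 0), by simp, by simp⟩
  | succ n ih =>
    intro s hs M b x0 y0 hM hMa hM0 hV
    by_cases hse : s = ∅
    · subst hse
      exact ⟨fun _ => (0, 0), by simp, by simp⟩
    have hsn : s.Nonempty := Finset.nonempty_iff_ne_empty.mpr hse
    have ha0 : 0 ≤ a := le_trans hM0 hMa
    obtain ⟨t, hts, hta, hcase⟩ := fill p hp a ha0 s
    obtain ⟨x, hx, hxd⟩ := row p hp t
    -- positivity of the total area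
    have hVpos : 0 < ∑ i ∈ s, p i ^ 2 := Finset.sum_pos (fun i _ => by have := hp i; positivity) hsn
    have hbM : 0 < b - M := by
      by_contra hcon
      push Not at hcon
      have : (a - M) * (b - M) ≤ 0 := mul_nonpos_of_nonneg_of_nonpos (by linarith) hcon
      linarith
    rcases hcase with hts' | ⟨j, hjs, hjt, hja, hjmin, hjmax⟩
    · subst hts'
      refine ⟨fun i => (x0 + x i, y0), ?_, ?_⟩
      · intro i hi
        have h1 := hx i hi
        have h2 := hM i hi
        refine ⟨by simp only; linarith [h1.1], by simp only; linarith [h1.2], le_refl _, ?_⟩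
        simp only
        linarith
      · intro i hi k hk hik
        rcases hxd i hi k hk hik with h | h
        · left; simp only; linarith
        · right; left; simp only; linarith
    · -- the remaining items
      have hpj := hp j
      have hjM := hM j hjs
      have hVt : p j * (a - p j) ≤ ∑ i ∈ t, p i ^ 2 := by
        have h1 : ∑ i ∈ t, p j * p i ≤ ∑ i ∈ t, p i ^ 2 := by
          apply Finset.sum_le_sum
          intro i hi
          have := hjmin i hi
          have h3 := hp i
          nlinarith
        rw [← Finset.mul_sum] at h1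
        have h2 : p j * (a - p j) ≤ p j * ∑ i ∈ t, p i :=
          mul_le_mul_of_nonneg_left (by linarith) hpj.le
        linarith
      have htne : t.Nonempty := by
        rw [Finset.nonempty_iff_ne_empty]
        intro h
        rw [h] at hja
        simp at hja
        linarith
      have hcard : (s \ t).card ≤ n := by
        have h1 := Finset.card_sdiff_add_card_eq_card hts
        have h2 := Finset.card_pos.mpr htne
        omega
      have hsum : ∑ i ∈ s \ t, p i ^ 2 + ∑ i ∈ t, p i ^ 2 = ∑ i ∈ s, p i ^ 2 :=
        Finset.sum_sdiff hts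
      have hnew : (∑ i ∈ s \ t, p i ^ 2) ≤ (a - p j) * ((b - M) - p j) := by
        have h1 : (a - M) * (b - M) ≤ (a - p j) * (b - M) :=
          mul_le_mul_of_nonneg_right (by linarith) hbM.le
        nlinarith
      obtain ⟨q, hq, hqd⟩ := ih (s \ t) hcard (p j) (b - M) x0 (y0 + M)
        (fun i hi => by
          rw [Finset.mem_sdiff] at hi
          exact hjmax i hi.1 hi.2) (by linarith) hpj.le hnew
      refine ⟨fun i => if i ∈ t then (x0 + x i, y0) else q i, ?_, ?_⟩
      · intro i hi
        by_cases hit : i ∈ t
        · simp only [hit, if_true]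
          have h1 := hx i hit
          have h2 := hM i hi
          exact ⟨by linarith [h1.1], by linarith [h1.2], le_refl _, by linarith⟩
        · simp only [hit, if_false]
          have h1 := hq i (Finset.mem_sdiff.mpr ⟨hi, hit⟩)
          exact ⟨h1.1, h1.2.1, by linarith [h1.2.2.1], by linarith [h1.2.2.2]⟩
      · have key : ∀ i ∈ s, ∀ k ∈ s, i ∈ t → k ∉ t →
            Sep (x0 + x i, y0) (p i) (q k) (p k) := by
          intro i hi k hk hit hkt
          have h1 := hq k (Finset.mem_sdiff.mpr ⟨hk, hkt⟩)
          have h2 := hM i hi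
          right; right; left
          simp only
          linarith [h1.2.2.1]
        intro i hi k hk hik
        by_cases hit : i ∈ t
        · by_cases hkt : k ∈ t
          · simp only [hit, hkt, if_true]
            rcases hxd i hit k hkt hik with h | h
            · left; simp only; linarith
            · right; left; simp only; linarith
          · simp only [hit, hkt, if_true, if_false]
            exact key i hi k hk hit hkt
        · by_cases hkt : k ∈ t
          · simp only [hit, hkt, if_true, if_false]
            exact (key k hk i hi hkt hit).symm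
          · simp only [hit, hkt, if_false]
            exact hqd i (Finset.mem_sdiff.mpr ⟨hi, hit⟩) k (Finset.mem_sdiff.mpr ⟨hk, hkt⟩) hik

/-- greedy distribution of small weights to cells -/
theorem distribute {ι κ : Type*} [DecidableEq ι] [DecidableEq κ] (w : ι → ℝ) (eta c : ℝ)
    (hw0 : ∀ i, 0 ≤ w i) (hw : ∀ i, w i ≤ eta) (cells : Finset κ) (hne : cells.Nonempty)
    (hc : 0 ≤ c) (s : Finset ι) :
    (∑ i ∈ s, w i) ≤ (cells.card : ℝ) * (c - eta) →
    ∃ f : ι → κ, (∀ i ∈ s, f i ∈ cells) ∧ ∀ k ∈ cells, (∑ i ∈ s with f i = k, w i) ≤ c := by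
  induction s using Finset.induction_on with
  | empty =>
    intro _
    obtain ⟨k, hk⟩ := hne
    exact ⟨fun _ => k, by simp, by simpa using fun _ _ => hc⟩
  | insert i s his ih =>
    intro hsum
    rw [Finset.sum_insert his] at hsum
    obtain ⟨f, hf, hload⟩ := ih (by linarith [hw0 i])
    -- a cell with small load
    have hex : ∃ k ∈ cells, (∑ j ∈ s with f j = k, w j) ≤ c - eta := by
      by_contra hcon
      push Not at hcon
      have h1 : ∑ k ∈ cells, (c - eta) < ∑ k ∈ cells, ∑ j ∈ s with f j = k, w j :=
        Finset.sum_lt_sum_of_nonempty hne (fun k hk => hcon k hk)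
      rw [Finset.sum_const, nsmul_eq_mul] at h1
      have h2 : ∑ k ∈ cells, ∑ j ∈ s with f j = k, w j = ∑ j ∈ s, w j :=
        Finset.sum_fiberwise_of_maps_to hf _
      rw [h2] at h1
      linarith [hw0 i]
    obtain ⟨k0, hk0, hload0⟩ := hex
    refine ⟨fun j => if j = i then k0 else f j, ?_, ?_⟩
    · intro j hj
      by_cases hji : j = i
      · simp only [hji, if_true]; exact hk0
      · simp only [hji, if_false]
        rcases Finset.mem_insert.mp hj with h | h
        · exact absurd h hji
        · exact hf j h
    · intro k hk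
      rw [Finset.filter_insert]
      have hfilt : (s.filter fun j => (if j = i then k0 else f j) = k) =
          s.filter fun j => f j = k := by
        apply Finset.filter_congr
        intro j hj
        have hji : j ≠ i := fun h => his (h ▸ hj)
        simp [hji]
      by_cases hkk : k0 = k
      · subst hkk
        simp only [if_true]
        rw [Finset.sum_insert (by
          rw [Finset.mem_filter]
          exact fun h => his h.1), hfilt]
        linarith [hw i]
      · simp only [if_true, hkk, if_false]
        rw [hfilt]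
        exact hload k hk

/-- pairing of consecutive items -/
theorem pairing {ι : Type*} [DecidableEq ι] (x : ι → ℝ) (hx : ∀ i, 0 < x i) :
    ∀ (n : ℕ) (s : Finset ι), s.card ≤ n → ∀ M : ℝ, (∀ i ∈ s, x i ≤ M) →
      ∃ g : ι → ι, (∀ i ∈ s, g i ∈ s ∧ g (g i) = g i ∧ x i ≤ x (g i)) ∧
        (∀ i ∈ s, ∀ j ∈ s, g i = g j → g i ≠ i → g j ≠ j → i = j) ∧
        2 * (∑ i ∈ s with g i = i, x i ^ 2) ≤ M ^ 2 + ∑ i ∈ s, x i ^ 2 := by
  intro n
  induction n with
  | zero =>
    intro s hs M _
    have : s = ∅ := Finset.card_eq_zero.mp (by omega)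
    subst this
    exact ⟨fun i => i, by simp, by simp, by simpa using sq_nonneg M⟩
  | succ n ih =>
    intro s hs M hM
    by_cases hse : s = ∅
    · subst hse
      exact ⟨fun i => i, by simp, by simp, by simpa using sq_nonneg M⟩
    obtain ⟨i1, hi1, hi1m⟩ := Finset.exists_max_image s x (Finset.nonempty_iff_ne_empty.mpr hse)
    have hx1M : x i1 ^ 2 ≤ M ^ 2 := by
      have := hM i1 hi1
      have := hx i1
      nlinarith
    by_cases hs1 : s.erase i1 = ∅
    · have hs2 : s = {i1} := by
        ext y
        rw [Finset.mem_singleton]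
        constructor
        · intro hy
          by_contra hne
          have : y ∈ s.erase i1 := Finset.mem_erase.mpr ⟨hne, hy⟩
          rw [hs1] at this
          simp at this
        · intro hy; rw [hy]; exact hi1
      subst hs2
      refine ⟨fun i => i, by simp, by simp, ?_⟩
      simp only [Finset.filter_true, Finset.sum_singleton]
      linarith
    obtain ⟨i2, hi2, hi2m⟩ := Finset.exists_max_image (s.erase i1) x
      (Finset.nonempty_iff_ne_empty.mpr hs1)
    have hi21 : i2 ≠ i1 := (Finset.mem_erase.mp hi2).1
    have hi2s : i2 ∈ s := (Finset.mem_erase.mp hi2).2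
    set u := (s.erase i1).erase i2 with hu
    have hucard : u.card ≤ n := by
      have h1 := Finset.card_erase_of_mem hi1
      have h2 := Finset.card_erase_of_mem hi2
      have h3 : 0 < s.card := Finset.card_pos.mpr ⟨i1, hi1⟩
      rw [← hu] at h2
      omega
    obtain ⟨g, hg1, hg2, hg3⟩ := ih u hucard (x i2) (fun i hi => by
      rw [hu] at hi
      exact hi2m i (Finset.mem_erase.mp hi).2)
    have humem : ∀ y, y ∈ u ↔ y ∈ s ∧ y ≠ i1 ∧ y ≠ i2 := by
      intro y
      rw [hu, Finset.mem_erase, Finset.mem_erase]
      tauto
    refine ⟨fun i => if i = i1 ∨ i = i2 then i1 else g i, ?_, ?_, ?_⟩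
    · intro i hi
      by_cases hc : i = i1 ∨ i = i2
      · simp only [hc, if_true, true_or]
        exact ⟨hi1, trivial, hi1m i hi⟩
      · have hiu : i ∈ u := (humem i).mpr ⟨hi, by tauto, by tauto⟩
        have h1 := hg1 i hiu
        have h2 := (humem _).mp h1.1
        have hc2 : ¬ (g i = i1 ∨ g i = i2) := by tauto
        simp only [hc, if_false, hc2]
        exact ⟨h2.1, h1.2.1, h1.2.2⟩
    · intro i hi j hj hij hgi hgj
      by_cases hc : i = i1 ∨ i = i2
      · simp only [hc, if_true] at hij hgi
        by_cases hc' : j = i1 ∨ j = i2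
        · simp only [hc', if_true] at hgj
          rcases hc with h | h
          · exact absurd h.symm hgi
          · rcases hc' with h' | h'
            · exact absurd h'.symm hgj
            · rw [h, h']
        · simp only [hc', if_false] at hij hgj
          have hju : j ∈ u := (humem j).mpr ⟨hj, by tauto, by tauto⟩
          have h1 := hg1 j hju
          have h2 := (humem _).mp h1.1
          exact absurd hij.symm h2.2.1
      · simp only [hc, if_false] at hij hgi
        have hiu : i ∈ u := (humem i).mpr ⟨hi, by tauto, by tauto⟩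
        have h1 := hg1 i hiu
        have h2 := (humem _).mp h1.1
        by_cases hc' : j = i1 ∨ j = i2
        · simp only [hc', if_true] at hij
          exact absurd hij h2.2.1
        · simp only [hc', if_false] at hij hgj
          have hju : j ∈ u := (humem j).mpr ⟨hj, by tauto, by tauto⟩
          exact hg2 i hiu j hju hij hgi hgj
    · have hs_eq : s = insert i1 (insert i2 u) := by
        rw [hu, Finset.insert_erase hi2, Finset.insert_erase hi1]
      have hi2u : i2 ∉ u := by rw [hu]; simp
      have hi1u : i1 ∉ insert i2 u := by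
        rw [Finset.mem_insert]
        push Not
        exact ⟨fun h => hi21 h.symm, by rw [hu]; simp⟩
      have hsum : ∑ i ∈ s, x i ^ 2 = x i1 ^ 2 + (x i2 ^ 2 + ∑ i ∈ u, x i ^ 2) := by
        conv_lhs => rw [hs_eq]
        rw [Finset.sum_insert hi1u, Finset.sum_insert hi2u]
      have hfil : (s.filter fun i => (if i = i1 ∨ i = i2 then i1 else g i) = i) =
          insert i1 (u.filter fun i => g i = i) := by
        ext y
        simp only [Finset.mem_filter, Finset.mem_insert]
        constructor
        · rintro ⟨hy, hy2⟩
          by_cases hc : y = i1 ∨ y = i2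
          · simp only [hc, if_true] at hy2
            exact Or.inl hy2.symm
          · simp only [hc, if_false] at hy2
            exact Or.inr ⟨(humem y).mpr ⟨hy, by tauto, by tauto⟩, hy2⟩
        · rintro (h | ⟨h1, h2⟩)
          · rw [h]; simp [hi1]
          · have h3 := (humem y).mp h1
            have hc : ¬ (y = i1 ∨ y = i2) := by tauto
            simp only [hc, if_false]
            exact ⟨h3.1, h2⟩
      rw [hfil, Finset.sum_insert (by
        rw [Finset.mem_filter]
        intro h
        exact ((humem _).mp h.1).2.1 rfl), hsum]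
      linarith

end Pool.Agent.SmallClones
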