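import Mathlib
import Pool.Agent.SmallClones.Shelf

set_option autoImplicit false

namespace Pool.Agent.SmallClones

open Finset MeasureTheory

/-- the cells of a fine grid that lie in a convex body exhaust almost all of its area -/
theorem cells (K : Set (ℝ × ℝ)) (hK : Convex ℝ K) (hb : Bornology.IsBounded K) (c : ℝ × ℝ)
    (r : ℝ) (hr : 0 < r) (hc : ∀ d : ℝ × ℝ, |d.1| ≤ r → |d.2| ≤ r → c + d ∈ K)
    (δ : ℝ) (hδ0 : 0 < δ) (hδ1 : δ < 1) :
    ∃ Z : Finset (ℤ × ℤ), (∀ z ∈ Z, ∀ w : ℝ × ℝ, (δ * r) * z.1 ≤ w.1 →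
      w.1 ≤ (δ * r) * z.1 + δ * r → (δ * r) * z.2 ≤ w.2 → w.2 ≤ (δ * r) * z.2 + δ * r → w ∈ K) ∧
      (1 - δ) ^ 2 * (volume K).toReal ≤ Z.card * (δ * r) ^ 2 := by
  classical
  set s := δ * r with hs
  have hs0 : 0 < s := mul_pos hδ0 hr
  have hcK : c ∈ K := by
    have := hc 0 (by simp [hr.le]) (by simp [hr.le])
    rwa [add_zero] at this
  set K' : Set (ℝ × ℝ) := AffineMap.homothety c (1 - δ) '' K with hK'
  have hvol : volume K' = ENNReal.ofReal ((1 - δ) ^ 2) * volume K := by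
    rw [hK', Measure.addHaar_image_homothety]
    congr 2
    rw [Module.finrank_prod, Module.finrank_self]
    norm_num
  have hK'K : ∀ w ∈ K', w ∈ K := by
    rintro w ⟨k, hk, rfl⟩
    rw [AffineMap.homothety_apply]
    have h1 : (1 - δ) • (k -ᵥ c) +ᵥ c = (1 - δ) • k + δ • c := by
      simp only [vsub_eq_sub, vadd_eq_add]
      module
    rw [h1]
    exact hK hk hcK (by linarith) hδ0.le (by ring)
  obtain ⟨R, hR⟩ := hb.exists_norm_le
  have hRb : ∀ w ∈ K, |w.1| ≤ R ∧ |w.2| ≤ R := by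
    intro w hw
    have h1 := hR w hw
    have h2 := norm_fst_le w
    have h3 := norm_snd_le w
    rw [Real.norm_eq_abs] at h2 h3
    exact ⟨h2.trans h1, h3.trans h1⟩
  obtain ⟨m, hm⟩ := exists_nat_ge (R / s + 1)
  set box : Finset (ℤ × ℤ) := Finset.Icc (-(m : ℤ)) m ×ˢ Finset.Icc (-(m : ℤ)) m with hbox
  set cell : ℤ × ℤ → Set (ℝ × ℝ) := fun z =>
    Set.Ico (s * z.1) (s * z.1 + s) ×ˢ Set.Ico (s * z.2) (s * z.2 + s) with hcell
  set Z : Finset (ℤ × ℤ) := box.filter (fun z => (cell z ∩ K').Nonempty) with hZ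
  have hfloor : ∀ x : ℝ, |x| ≤ R → ⌊x / s⌋ ∈ Finset.Icc (-(m : ℤ)) m ∧
      s * (⌊x / s⌋ : ℝ) ≤ x ∧ x < s * (⌊x / s⌋ : ℝ) + s := by
    intro x hx
    have h1 : |x / s| ≤ R / s := by
      rw [abs_div, abs_of_pos hs0]
      exact div_le_div_of_nonneg_right hx hs0.le
    rw [abs_le] at h1
    have h2 := Int.floor_le (x / s)
    have h3 := Int.lt_floor_add_one (x / s)
    refine ⟨?_, ?_, ?_⟩
    · rw [Finset.mem_Icc]
      constructor
      · have : (-(m : ℝ)) < (⌊x / s⌋ : ℝ) + 0 := by linarith [h1.1]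
        have h5 : (-(m : ℝ)) ≤ (⌊x / s⌋ : ℝ) := by linarith
        exact_mod_cast h5
      · have h5 : (⌊x / s⌋ : ℝ) ≤ m := by linarith [h1.2]
        exact_mod_cast h5
    · have := mul_le_mul_of_nonneg_left h2 hs0.le
      rwa [mul_div_cancel₀ x hs0.ne'] at this
    · have := mul_lt_mul_of_pos_left h3 hs0
      rw [mul_div_cancel₀ x hs0.ne'] at this
      linarith
  have hcover : K' ⊆ ⋃ z ∈ Z, cell z := by
    intro w hw
    have h1 := hRb w (hK'K w hw)
    obtain ⟨ha, hb1, hb2⟩ := hfloor w.1 h1.1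
    obtain ⟨ha', hb1', hb2'⟩ := hfloor w.2 h1.2
    have hwc : w ∈ cell (⌊w.1 / s⌋, ⌊w.2 / s⌋) := by
      simp only [hcell, Set.mem_prod, Set.mem_Ico]
      exact ⟨⟨hb1, hb2⟩, hb1', hb2'⟩
    simp only [Set.mem_iUnion]
    refine ⟨(⌊w.1 / s⌋, ⌊w.2 / s⌋), ?_, hwc⟩
    rw [hZ, Finset.mem_filter]
    refine ⟨?_, ⟨w, hwc, hw⟩⟩
    rw [hbox, Finset.mem_product]
    exact ⟨ha, ha'⟩
  have hcv : ∀ z, volume (cell z) = ENNReal.ofReal (s ^ 2) := by
    intro z
    simp only [hcell]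
    rw [Measure.volume_eq_prod, Measure.prod_prod, Real.volume_Ico, Real.volume_Ico,
      ← ENNReal.ofReal_mul (by linarith)]
    congr 1
    ring
  have hmeas : volume K' ≤ ENNReal.ofReal (Z.card * s ^ 2) := by
    calc volume K' ≤ volume (⋃ z ∈ Z, cell z) := measure_mono hcover
      _ ≤ ∑ z ∈ Z, volume (cell z) := measure_biUnion_finset_le _ _
      _ = ENNReal.ofReal (Z.card * s ^ 2) := by
        rw [Finset.sum_congr rfl (fun z _ => hcv z), Finset.sum_const, nsmul_eq_mul,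
          ENNReal.ofReal_mul (by positivity), ENNReal.ofReal_natCast]
  refine ⟨Z, ?_, ?_⟩
  · intro z hz w hw1 hw2 hw3 hw4
    rw [hZ, Finset.mem_filter] at hz
    obtain ⟨v, hv, k, hk, hkv⟩ := hz.2
    simp only [hcell, Set.mem_prod, Set.mem_Ico] at hv
    rw [AffineMap.homothety_apply] at hkv
    have hd1 : |(w.1 - v.1) / δ| ≤ r := by
      rw [abs_div, abs_of_pos hδ0, div_le_iff₀ hδ0, abs_le]
      have : r * δ = s := by rw [hs]; ring
      rw [this]
      constructor <;> linarith [hv.1.1, hv.1.2]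
    have hd2 : |(w.2 - v.2) / δ| ≤ r := by
      rw [abs_div, abs_of_pos hδ0, div_le_iff₀ hδ0, abs_le]
      have : r * δ = s := by rw [hs]; ring
      rw [this]
      constructor <;> linarith [hv.2.1, hv.2.2]
    have h1 := hc ((w.1 - v.1) / δ, (w.2 - v.2) / δ) hd1 hd2
    have h2 : (1 - δ) • k + δ • (c + ((w.1 - v.1) / δ, (w.2 - v.2) / δ)) ∈ K :=
      hK hk h1 (by linarith) hδ0.le (by ring)
    have h3 : (1 - δ) • k + δ • (c + ((w.1 - v.1) / δ, (w.2 - v.2) / δ)) = w := by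
      rw [← hkv] 
      ext
      · simp only [vsub_eq_sub, vadd_eq_add, Prod.fst_add, Prod.smul_fst, Prod.fst_sub,
          smul_eq_mul]
        field_simp
        ring
      · simp only [vsub_eq_sub, vadd_eq_add, Prod.snd_add, Prod.smul_snd, Prod.snd_sub,
          smul_eq_mul]
        field_simp
        ring
    rw [← h3]
    exact h2
  · rw [hvol] at hmeas
    have h1 := ENNReal.toReal_mono (ENNReal.ofReal_ne_top) hmeas
    rw [ENNReal.toReal_mul, ENNReal.toReal_ofReal (by positivity),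
      ENNReal.toReal_ofReal (by positivity)] at h1
    exact h1

/-- small squares pack into a convex body with little waste -/
theorem squares_in_body {ι : Type*} [DecidableEq ι] (K : Set (ℝ × ℝ)) (hK : Convex ℝ K)
    (hb : Bornology.IsBounded K) (c : ℝ × ℝ)
    (r : ℝ) (hr : 0 < r) (hc : ∀ d : ℝ × ℝ, |d.1| ≤ r → |d.2| ≤ r → c + d ∈ K)
    (δ : ℝ) (hδ0 : 0 < δ) (hδ1 : δ < 1) (hvol : 0 < (volume K).toReal)
    (eps : ℝ) (he0 : 0 < eps) (he : 2 * eps ≤ δ * r)
    (p : ι → ℝ) (hp : ∀ i, 0 < p i) (s : Finset ι) (hpe : ∀ i ∈ s, p i ≤ eps)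
    (hV : ∑ i ∈ s, p i ^ 2 ≤ (1 - δ) ^ 2 * (volume K).toReal * (1 - 2 * eps / (δ * r))) :
    ∃ q : ι → ℝ × ℝ, (∀ i ∈ s, ∀ w : ℝ × ℝ, (q i).1 ≤ w.1 → w.1 ≤ (q i).1 + p i →
      (q i).2 ≤ w.2 → w.2 ≤ (q i).2 + p i → w ∈ K) ∧
      ∀ i ∈ s, ∀ j ∈ s, i ≠ j → Sep (q i) (p i) (q j) (p j) := by
  obtain ⟨Z, hZ1, hZ2⟩ := cells K hK hb c r hr hc δ hδ0 hδ1
  set S := δ * r with hS
  have hS0 : 0 < S := mul_pos hδ0 hr
  have hZne : Z.Nonempty := by
    rw [Finset.nonempty_iff_ne_empty]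
    intro h
    rw [h] at hZ2
    simp only [Finset.card_empty, Nat.cast_zero, zero_mul] at hZ2
    have : 0 < (1 - δ) ^ 2 * (volume K).toReal := mul_pos (by
      have : 0 < 1 - δ := by linarith
      positivity) hvol
    linarith
  -- weights, truncated outside `s`
  set w : ι → ℝ := fun i => if i ∈ s then p i ^ 2 else 0 with hw
  have hw0 : ∀ i, 0 ≤ w i := by
    intro i
    simp only [hw]
    split_ifs
    · positivity
    · exact le_refl _
  have hwe : ∀ i, w i ≤ eps ^ 2 := by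
    intro i
    simp only [hw]
    split_ifs with h
    · have := hpe i h
      have := hp i
      nlinarith
    · positivity
  have hws : ∀ t : Finset ι, t ⊆ s → ∑ i ∈ t, w i = ∑ i ∈ t, p i ^ 2 := by
    intro t ht
    apply Finset.sum_congr rfl
    intro i hi
    simp only [hw, ht hi, if_true]
  have htot : ∑ i ∈ s, w i ≤ (Z.card : ℝ) * ((S - eps) ^ 2 - eps ^ 2) := by
    rw [hws s (Finset.Subset.refl s)]
    have h1 : 0 ≤ 1 - 2 * eps / S := by
      rw [sub_nonneg, div_le_one hS0]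
      exact he
    have h2 := mul_le_mul_of_nonneg_right hZ2 h1
    have h3 : (Z.card : ℝ) * S ^ 2 * (1 - 2 * eps / S) = (Z.card : ℝ) * ((S - eps) ^ 2 - eps ^ 2) := by
      field_simp
      ring
    linarith
  obtain ⟨f, hf1, hf2⟩ := distribute w (eps ^ 2) ((S - eps) ^ 2) hw0 hwe Z hZne (sq_nonneg _) s htot
  have hshelf : ∀ z : ℤ × ℤ, ∃ q : ι → ℝ × ℝ, z ∈ Z → ((∀ i ∈ s, f i = z →
      (S * z.1 ≤ (q i).1 ∧ (q i).1 + p i ≤ S * z.1 + S ∧ S * z.2 ≤ (q i).2 ∧
        (q i).2 + p i ≤ S * z.2 + S)) ∧ ∀ i ∈ s, ∀ j ∈ s, f i = z → f j = z → i ≠ j →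
          Sep (q i) (p i) (q j) (p j)) := by
    intro z
    by_cases hz : z ∈ Z
    · have hload := hf2 z hz
      rw [hws _ (Finset.filter_subset _ _)] at hload
      obtain ⟨q, hq1, hq2⟩ := shelf p hp S (s.filter fun i => f i = z).card
        (s.filter fun i => f i = z) (le_refl _) eps S (S * z.1) (S * z.2)
        (fun i hi => hpe i (Finset.mem_filter.mp hi).1) (by linarith) he0.le
        (by
          calc _ ≤ (S - eps) ^ 2 := hload
            _ = _ := by ring)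
      refine ⟨q, fun _ => ⟨fun i hi hfi => hq1 i (Finset.mem_filter.mpr ⟨hi, hfi⟩),
        fun i hi j hj hfi hfj hij => hq2 i (Finset.mem_filter.mpr ⟨hi, hfi⟩) j
          (Finset.mem_filter.mpr ⟨hj, hfj⟩) hij⟩⟩
    · exact ⟨fun _ => (0, 0), fun h => absurd h hz⟩
  choose Q hQ using hshelf
  refine ⟨fun i => Q (f i) i, ?_, ?_⟩
  · intro i hi v hv1 hv2 hv3 hv4
    have h1 := (hQ (f i) (hf1 i hi)).1 i hi rfl
    exact hZ1 (f i) (hf1 i hi) v (by linarith [h1.1]) (by linarith [h1.2.1])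
      (by linarith [h1.2.2.1]) (by linarith [h1.2.2.2])
  · intro i hi j hj hij
    by_cases hfe : f i = f j
    · have h1 := (hQ (f i) (hf1 i hi)).2 i hi j hj rfl hfe.symm hij
      show Sep (Q (f i) i) (p i) (Q (f j) j) (p j)
      rw [← hfe]
      exact h1
    · have h1 := (hQ (f i) (hf1 i hi)).1 i hi rfl
      have h2 := (hQ (f j) (hf1 j hj)).1 j hj rfl
      have key : ∀ a b : ℤ, a < b → S * (a : ℝ) + S ≤ S * (b : ℝ) := by
        intro a b hab
        have h3 : (a : ℝ) + 1 ≤ (b : ℝ) := by exact_mod_cast hab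
        have := mul_le_mul_of_nonneg_left h3 hS0.le
        linarith
      by_cases h3 : (f i).1 = (f j).1
      · have h4 : (f i).2 ≠ (f j).2 := fun h => hfe (Prod.ext h3 h)
        rcases lt_or_gt_of_ne h4 with h5 | h5
        · right; right; left
          have := key _ _ h5
          linarith [h1.2.2.2, h2.2.2.1]
        · right; right; right
          have := key _ _ h5
          linarith [h2.2.2.2, h1.2.2.1]
      · rcases lt_or_gt_of_ne h3 with h5 | h5
        · left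
          have := key _ _ h5
          linarith [h1.2.1, h2.1]
        · right; left
          have := key _ _ h5
          linarith [h2.2.1, h1.1]

end Pool.Agent.SmallClones
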