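import Mathlib
import Pool.Agent.SmallClones.Cells

set_option autoImplicit false

namespace Pool.Agent.SmallClones

open Finset MeasureTheory

/-- small families of scaled copies of `K` pack into `K`, using translations and
point reflections only -/
def Pk {V : Type*} [AddCommGroup V] [Module ℝ V] [TopologicalSpace V] (θ ε : ℝ) (K : Set V) :
    Prop :=
  ∀ (n : ℕ) (x : Fin n → ℝ), (∀ i, 0 < x i) → (∀ i, x i ≤ ε) → ∑ i, x i ^ 2 ≤ θ →
    ∃ (e : Fin n → ℝ) (b : Fin n → V), (∀ i, e i = 1 ∨ e i = -1) ∧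
      (∀ i, (fun y => (e i * x i) • y + b i) '' K ⊆ K) ∧
      ∀ i j, i ≠ j → Disjoint (interior ((fun y => (e i * x i) • y + b i) '' K))
        (interior ((fun y => (e j * x j) • y + b j) '' K))

/-- affine invariance -/
theorem Pk.map {V W : Type*} [AddCommGroup V] [Module ℝ V] [TopologicalSpace V]
    [IsTopologicalAddGroup V]
    [AddCommGroup W] [Module ℝ W] [TopologicalSpace W] [IsTopologicalAddGroup W]
    {θ ε : ℝ} {K : Set V}
    (h : Pk θ ε K) (L : V ≃L[ℝ] W) (t : W) : Pk θ ε ((fun y => L y + t) '' K) := by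
  intro n x hx hxe hxs
  obtain ⟨e, b, he, hb, hd⟩ := h n x hx hxe hxs
  let φ : V ≃ₜ W := L.toHomeomorph.trans (Homeomorph.addRight t)
  have hφ : ∀ y, φ y = L y + t := fun y => rfl
  have himg : ∀ i, (fun y => (e i * x i) • y + (L (b i) + t - (e i * x i) • t)) ''
      ((fun y => L y + t) '' K) = φ '' ((fun y => (e i * x i) • y + b i) '' K) := by
    intro i
    rw [Set.image_image, Set.image_image]
    apply Set.image_congr
    intro y _
    rw [hφ, map_add, map_smul, smul_add]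
    abel
  refine ⟨e, fun i => L (b i) + t - (e i * x i) • t, he, ?_, ?_⟩
  · intro i
    rw [himg]
    exact Set.image_mono (hb i)
  · intro i j hij
    rw [himg, himg, ← Homeomorph.image_interior, ← Homeomorph.image_interior,
      Set.disjoint_image_iff φ.injective]
    exact hd i j hij

/-- sets separated by a line have disjoint interiors -/
theorem disjoint_of_line (A B : Set (ℝ × ℝ)) (α β c : ℝ) (hαβ : α ≠ 0 ∨ β ≠ 0)
    (hA : ∀ w ∈ A, α * w.1 + β * w.2 ≤ c) (hB : ∀ w ∈ B, c ≤ α * w.1 + β * w.2) :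
    Disjoint (interior A) (interior B) := by
  rw [Set.disjoint_iff]
  rintro w ⟨hwA, hwB⟩
  have hcont : Continuous fun t : ℝ => w + t • ((α, β) : ℝ × ℝ) := by fun_prop
  have hpre : (fun t : ℝ => w + t • ((α, β) : ℝ × ℝ)) ⁻¹' interior A ∈ nhds (0 : ℝ) := by
    apply hcont.continuousAt.preimage_mem_nhds
    have : w + (0 : ℝ) • ((α, β) : ℝ × ℝ) = w := by simp
    rw [this]
    exact isOpen_interior.mem_nhds hwA
  obtain ⟨δ, hδ, hball⟩ := Metric.mem_nhds_iff.mp hpre
  have h1 : w + (δ / 2) • ((α, β) : ℝ × ℝ) ∈ A := by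
    apply interior_subset
    apply hball
    rw [Metric.mem_ball, dist_zero_right, Real.norm_eq_abs, abs_of_pos (by linarith)]
    linarith
  have h2 := hA _ h1
  have h3 := hB _ (interior_subset hwB)
  simp only [Prod.fst_add, Prod.smul_fst, Prod.snd_add, Prod.smul_snd, smul_eq_mul] at h2
  have h4 : 0 < α ^ 2 + β ^ 2 := by
    rcases hαβ with h | h
    · have := sq_nonneg β
      have := pow_pos (abs_pos.mpr h) 2
      rw [sq_abs] at this
      linarith
    · have := sq_nonneg α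
      have := pow_pos (abs_pos.mpr h) 2
      rw [sq_abs] at this
      linarith
  have h5 : 0 < δ / 2 * (α ^ 2 + β ^ 2) := mul_pos (by linarith) h4
  nlinarith

/-- the numerical condition -/
theorem image_mem {x : ℝ} {b w : ℝ × ℝ} {K : Set (ℝ × ℝ)} {e : ℝ}
    (hw : w ∈ (fun y => (e * x) • y + b) '' K) :
    ∃ y ∈ K, w.1 = e * x * y.1 + b.1 ∧ w.2 = e * x * y.2 + b.2 := by
  obtain ⟨y, hy, rfl⟩ := hw
  exact ⟨y, hy, by simp, by simp⟩

theorem disjoint_of_sep {A B : Set (ℝ × ℝ)} {q q' : ℝ × ℝ} {p p' : ℝ} (h : Sep q p q' p')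
    (hA : ∀ w ∈ A, q.1 ≤ w.1 ∧ w.1 ≤ q.1 + p ∧ q.2 ≤ w.2 ∧ w.2 ≤ q.2 + p)
    (hB : ∀ w ∈ B, q'.1 ≤ w.1 ∧ w.1 ≤ q'.1 + p' ∧ q'.2 ≤ w.2 ∧ w.2 ≤ q'.2 + p') :
    Disjoint (interior A) (interior B) := by
  rcases h with h | h | h | h
  · exact disjoint_of_line A B 1 0 (q.1 + p) (Or.inl one_ne_zero)
      (fun w hw => by linarith [(hA w hw).2.1]) (fun w hw => by linarith [(hB w hw).1])
  · exact (disjoint_of_line B A 1 0 (q'.1 + p') (Or.inl one_ne_zero)
      (fun w hw => by linarith [(hB w hw).2.1]) (fun w hw => by linarith [(hA w hw).1])).symm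
  · exact disjoint_of_line A B 0 1 (q.2 + p) (Or.inr one_ne_zero)
      (fun w hw => by linarith [(hA w hw).2.2.2]) (fun w hw => by linarith [(hB w hw).2.2.1])
  · exact (disjoint_of_line B A 0 1 (q'.2 + p') (Or.inr one_ne_zero)
      (fun w hw => by linarith [(hB w hw).2.2.2]) (fun w hw => by linarith [(hA w hw).2.2.1])).symm

/-- Case of a body inside the unit square. -/
theorem core1 (K : Set (ℝ × ℝ)) (hK : Convex ℝ K)
    (hbox : ∀ w ∈ K, 0 ≤ w.1 ∧ w.1 ≤ 1 ∧ 0 ≤ w.2 ∧ w.2 ≤ 1) (c : ℝ × ℝ)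
    (r : ℝ) (hr : 0 < r) (hc : ∀ d : ℝ × ℝ, |d.1| ≤ r → |d.2| ≤ r → c + d ∈ K)
    (δ : ℝ) (hδ0 : 0 < δ) (hδ1 : δ < 1) (vol : ℝ) (hv0 : 0 < vol)
    (hvol : vol ≤ (volume K).toReal)
    (eps : ℝ) (he0 : 0 < eps) (he : 2 * eps ≤ δ * r) (θ : ℝ)
    (hθ : θ ≤ (1 - δ) ^ 2 * vol * (1 - 2 * eps / (δ * r))) : Pk θ eps K := by
  intro n x hx hxe hxs
  have hb : Bornology.IsBounded K := by
    rw [isBounded_iff_forall_norm_le]
    refine ⟨1, fun w hw => ?_⟩
    have := hbox w hw
    rw [Prod.norm_def]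
    simp only [Real.norm_eq_abs]
    apply max_le <;> rw [abs_le] <;> constructor <;> linarith
  have hfac : 0 ≤ 1 - 2 * eps / (δ * r) := by
    rw [sub_nonneg, div_le_one (mul_pos hδ0 hr)]
    exact he
  obtain ⟨q, hq1, hq2⟩ := squares_in_body K hK hb c r hr hc δ hδ0 hδ1 (lt_of_lt_of_le hv0 hvol)
    eps he0 he x hx Finset.univ (fun i _ => hxe i) (by
      refine hxs.trans (hθ.trans ?_)
      apply mul_le_mul_of_nonneg_right _ hfac
      apply mul_le_mul_of_nonneg_left hvol (sq_nonneg _))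
  have hin : ∀ i, ∀ w ∈ (fun y => ((1 : ℝ) * x i) • y + q i) '' K,
      (q i).1 ≤ w.1 ∧ w.1 ≤ (q i).1 + x i ∧ (q i).2 ≤ w.2 ∧ w.2 ≤ (q i).2 + x i := by
    intro i w hw
    obtain ⟨y, hy, h1, h2⟩ := image_mem hw
    have h3 := hbox y hy
    have h4 := hx i
    rw [h1, h2]
    refine ⟨?_, ?_, ?_, ?_⟩ <;> nlinarith
  refine ⟨fun _ => 1, q, fun _ => Or.inl rfl, ?_, ?_⟩
  · intro i w hw
    have h1 := hin i w hw
    exact hq1 i (Finset.mem_univ i) w h1.1 h1.2.1 h1.2.2.1 h1.2.2.2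
  · intro i j hij
    exact disjoint_of_sep (hq2 i (Finset.mem_univ i) j (Finset.mem_univ j) hij) (hin i) (hin j)

/-- Case of a body inside a triangle: pairs of a copy and a reflected smaller copy. -/
theorem core2 (K : Set (ℝ × ℝ)) (hK : Convex ℝ K)
    (hbox : ∀ w ∈ K, 0 ≤ w.1 ∧ 0 ≤ w.2 ∧ w.1 + w.2 ≤ 1) (c : ℝ × ℝ)
    (r : ℝ) (hr : 0 < r) (hc : ∀ d : ℝ × ℝ, |d.1| ≤ r → |d.2| ≤ r → c + d ∈ K)
    (δ : ℝ) (hδ0 : 0 < δ) (hδ1 : δ < 1) (vol : ℝ) (hv0 : 0 < vol)
    (hvol : vol ≤ (volume K).toReal)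
    (eps : ℝ) (he0 : 0 < eps) (he : 2 * eps ≤ δ * r) (θ : ℝ)
    (hθ : (eps ^ 2 + θ) / 2 ≤ (1 - δ) ^ 2 * vol * (1 - 2 * eps / (δ * r))) : Pk θ eps K := by
  intro n x hx hxe hxs
  have hb : Bornology.IsBounded K := by
    rw [isBounded_iff_forall_norm_le]
    refine ⟨1, fun w hw => ?_⟩
    have := hbox w hw
    rw [Prod.norm_def]
    simp only [Real.norm_eq_abs]
    apply max_le <;> rw [abs_le] <;> constructor <;> linarith
  have hfac : 0 ≤ 1 - 2 * eps / (δ * r) := by
    rw [sub_nonneg, div_le_one (mul_pos hδ0 hr)]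
    exact he
  obtain ⟨g, hg1, hg2, hg3⟩ := pairing x hx n Finset.univ (by simp) eps (fun i _ => hxe i)
  obtain ⟨q, hq1, hq2⟩ := squares_in_body K hK hb c r hr hc δ hδ0 hδ1 (lt_of_lt_of_le hv0 hvol)
    eps he0 he x hx (Finset.univ.filter fun i => g i = i) (fun i _ => hxe i) (by
      have h1 : ∑ i ∈ Finset.univ.filter (fun i => g i = i), x i ^ 2 ≤ (eps ^ 2 + θ) / 2 := by
        linarith
      refine h1.trans (hθ.trans ?_)
      apply mul_le_mul_of_nonneg_right _ hfac
      apply mul_le_mul_of_nonneg_left hvol (sq_nonneg _))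
  have hgm : ∀ i, g i ∈ Finset.univ.filter fun i => g i = i := fun i => by
    rw [Finset.mem_filter]
    exact ⟨Finset.mem_univ _, (hg1 i (Finset.mem_univ i)).2.1⟩
  set e : Fin n → ℝ := fun i => if g i = i then 1 else -1 with he'
  set b : Fin n → ℝ × ℝ := fun i => if g i = i then q i else q (g i) + (x (g i), x (g i)) with hb'
  have hin : ∀ i, ∀ w ∈ (fun y => (e i * x i) • y + b i) '' K,
      (q (g i)).1 ≤ w.1 ∧ w.1 ≤ (q (g i)).1 + x (g i) ∧ (q (g i)).2 ≤ w.2 ∧
        w.2 ≤ (q (g i)).2 + x (g i) := by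
    intro i w hw
    obtain ⟨y, hy, h1, h2⟩ := image_mem hw
    have h3 := hbox y hy
    have h4 := hx i
    have h5 := (hg1 i (Finset.mem_univ i)).2.2
    by_cases hgi : g i = i
    · simp only [he', hb', hgi, if_true] at h1 h2 ⊢
      rw [h1, h2]
      refine ⟨?_, ?_, ?_, ?_⟩ <;> nlinarith
    · simp only [he', hb', hgi, if_false, Prod.fst_add, Prod.snd_add] at h1 h2 ⊢
      rw [h1, h2]
      refine ⟨?_, ?_, ?_, ?_⟩ <;> nlinarith
  refine ⟨e, b, ?_, ?_, ?_⟩
  · intro i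
    simp only [he']
    split_ifs
    · exact Or.inl rfl
    · exact Or.inr rfl
  · intro i w hw
    have h1 := hin i w hw
    exact hq1 (g i) (hgm i) w h1.1 h1.2.1 h1.2.2.1 h1.2.2.2
  · -- in one cell: leader below the diagonal, the other above it
    have hlead : ∀ i j, g i = i → g j = i → j ≠ i →
        Disjoint (interior ((fun y => (e i * x i) • y + b i) '' K))
          (interior ((fun y => (e j * x j) • y + b j) '' K)) := by
      intro i j hgi hgj hji
      apply disjoint_of_line _ _ 1 1 ((q i).1 + (q i).2 + x i) (Or.inl one_ne_zero)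
      · intro w hw
        obtain ⟨y, hy, h1, h2⟩ := image_mem hw
        have h3 := hbox y hy
        have h4 := hx i
        simp only [he', hb', hgi, if_true] at h1 h2
        rw [h1, h2]
        nlinarith
      · intro w hw
        obtain ⟨y, hy, h1, h2⟩ := image_mem hw
        have h3 := hbox y hy
        have h4 := hx j
        have h5 := (hg1 j (Finset.mem_univ j)).2.2
        rw [hgj] at h5
        have hji' : ¬ (i = j) := fun h => hji h.symm
        simp only [he', hb', hgj, hji', if_false, Prod.fst_add, Prod.snd_add] at h1 h2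
        rw [h1, h2]
        nlinarith
    intro i j hij
    by_cases hgij : g i = g j
    · by_cases hgi : g i = i
      · exact hlead i j hgi (by rw [← hgij, hgi]) (fun h => hij h.symm)
      · by_cases hgj : g j = j
        · exact (hlead j i hgj (by rw [hgij, hgj]) hij).symm
        · exact absurd (hg2 i (Finset.mem_univ i) j (Finset.mem_univ j) hgij hgi hgj) hij
    · exact disjoint_of_sep (hq2 (g i) (hgm i) (g j) (hgm j) hgij) (hin i) (hin j)

end Pool.Agent.SmallClones
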