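import Mathlib
import Pool.Agent.SmallClones.Pk

set_option autoImplicit false

namespace Pool.Agent.SmallClones

open Finset MeasureTheory

/-- an explicit linear automorphism of the plane -/
noncomputable def lin2 (a b c d : ℝ) (h : a * d - b * c ≠ 0) : (ℝ × ℝ) ≃L[ℝ] (ℝ × ℝ) where
  toFun w := (a * w.1 + b * w.2, c * w.1 + d * w.2)
  invFun w := ((d * w.1 - b * w.2) / (a * d - b * c), (a * w.2 - c * w.1) / (a * d - b * c))
  map_add' v w := by
    ext <;> simp <;> ring
  map_smul' r w := by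
    ext <;> simp <;> ring
  left_inv w := by
    ext
    · simp only
      rw [div_eq_iff h]
      ring
    · simp only
      rw [div_eq_iff h]
      ring
  right_inv w := by
    ext
    · simp only
      rw [← mul_div_assoc, ← mul_div_assoc, ← add_div, div_eq_iff h]
      ring
    · simp only
      rw [← mul_div_assoc, ← mul_div_assoc, ← add_div, div_eq_iff h]
      ring
  continuous_toFun := by
    fun_prop
  continuous_invFun := by
    fun_prop

theorem lin2_apply (a b c d : ℝ) (h : a * d - b * c ≠ 0) (w : ℝ × ℝ) :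
    lin2 a b c d h w = (a * w.1 + b * w.2, c * w.1 + d * w.2) := rfl

/-- effect of a (possibly degenerate) affine map on the area -/
theorem volume_affine (a b c d : ℝ) (t : ℝ × ℝ) (S : Set (ℝ × ℝ)) :
    volume ((fun w : ℝ × ℝ => (t.1 + (a * w.1 + b * w.2), t.2 + (c * w.1 + d * w.2))) '' S) =
      ENNReal.ofReal |a * d - b * c| * volume S := by
  set f : (ℝ × ℝ) →ₗ[ℝ] (ℝ × ℝ) :=
    Matrix.toLin (Module.Basis.finTwoProd ℝ) (Module.Basis.finTwoProd ℝ) !![a, b; c, d] with hf
  have h1 : (fun w : ℝ × ℝ => (t.1 + (a * w.1 + b * w.2), t.2 + (c * w.1 + d * w.2))) '' S =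
      (fun w => t + w) '' (f '' S) := by
    rw [Set.image_image]
    apply Set.image_congr
    intro w _
    rw [hf, Matrix.toLin_finTwoProd_apply]
    rfl
  rw [h1, Set.image_add_left, measure_preimage_add, Measure.addHaar_image_linearMap, hf,
    LinearMap.det_toLin, Matrix.det_fin_two_of]

/-- the open standard triangle -/
def Tri : Set (ℝ × ℝ) := {w | 0 < w.1 ∧ 0 < w.2 ∧ w.1 + w.2 < 1}

theorem volume_Tri : volume Tri = ENNReal.ofReal (1 / 2) := by
  have h1 : Tri = regionBetween (fun _ : ℝ => (0 : ℝ)) (fun x => 1 - x) (Set.Ioc 0 1) := by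
    ext w
    simp only [Tri, regionBetween, Set.mem_ofPred_eq, Set.mem_Ioc, Set.mem_Ioo]
    constructor
    · rintro ⟨ha, hb, hc⟩
      exact ⟨⟨ha, by linarith⟩, hb, by linarith⟩
    · rintro ⟨⟨ha, _⟩, hb, hc⟩
      exact ⟨ha, hb, by linarith⟩
  rw [h1, Measure.volume_eq_prod, volume_regionBetween_eq_integral]
  · congr 1
    have : ((fun x : ℝ => 1 - x) - fun _ => (0 : ℝ)) = fun x => 1 - x := by
      ext x; simp
    rw [this, ← intervalIntegral.integral_of_le zero_le_one]
    rw [intervalIntegral.integral_sub (by simp) (by simp)]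
    simp
    norm_num
  · exact (continuousOn_const.integrableOn_Icc).mono_set Set.Ioc_subset_Icc_self
  · exact ((continuousOn_const.sub continuousOn_id).integrableOn_Icc).mono_set
      Set.Ioc_subset_Icc_self
  · exact measurableSet_Ioc
  · intro x hx
    simp only [Set.mem_Ioc] at hx
    linarith [hx.2]

/-- twice the signed area of a triangle -/
def dt (A B C : ℝ × ℝ) : ℝ := (B.1 - A.1) * (C.2 - A.2) - (B.2 - A.2) * (C.1 - A.1)

theorem tri_vol (S : Set (ℝ × ℝ)) (A B C : ℝ × ℝ)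
    (h : ∀ x y : ℝ, 0 < x → 0 < y → x + y < 1 →
      (A.1 + ((B.1 - A.1) * x + (C.1 - A.1) * y), A.2 + ((B.2 - A.2) * x + (C.2 - A.2) * y)) ∈ S) :
    ENNReal.ofReal (|dt A B C| / 2) ≤ volume S := by
  have h1 := volume_affine (B.1 - A.1) (C.1 - A.1) (B.2 - A.2) (C.2 - A.2) A Tri
  rw [volume_Tri, ← ENNReal.ofReal_mul (abs_nonneg _)] at h1
  have h2 : |(B.1 - A.1) * (C.2 - A.2) - (C.1 - A.1) * (B.2 - A.2)| * (1 / 2) = |dt A B C| / 2 := by
    have : (B.1 - A.1) * (C.2 - A.2) - (C.1 - A.1) * (B.2 - A.2) = dt A B C := by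
      unfold dt; ring
    rw [this]; ring
  rw [h2] at h1
  rw [← h1]
  apply measure_mono
  rintro _ ⟨w, hw, rfl⟩
  exact h w.1 w.2 hw.1 hw.2.1 hw.2.2

theorem conv3 {K : Set (ℝ × ℝ)} (hK : Convex ℝ K) {A B C : ℝ × ℝ} (hA : A ∈ K) (hB : B ∈ K)
    (hC : C ∈ K) {x y : ℝ} (hx : 0 ≤ x) (hy : 0 ≤ y) (hxy : x + y ≤ 1) :
    (A.1 + ((B.1 - A.1) * x + (C.1 - A.1) * y), A.2 + ((B.2 - A.2) * x + (C.2 - A.2) * y)) ∈ K := by
  by_cases hz : x + y = 0
  · have hx0 : x = 0 := by linarith
    have hy0 : y = 0 := by linarith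
    subst hx0; subst hy0
    simpa using hA
  have hpos : 0 < x + y := lt_of_le_of_ne (by linarith) (Ne.symm hz)
  have h1 : (x / (x + y)) • B + (y / (x + y)) • C ∈ K :=
    hK hB hC (div_nonneg hx hpos.le) (div_nonneg hy hpos.le) (by field_simp)
  have h2 := hK hA h1 (a := 1 - (x + y)) (b := x + y) (by linarith) hpos.le (by ring)
  have h3 : (1 - (x + y)) • A + (x + y) • ((x / (x + y)) • B + (y / (x + y)) • C) =
      (A.1 + ((B.1 - A.1) * x + (C.1 - A.1) * y), A.2 + ((B.2 - A.2) * x + (C.2 - A.2) * y)) := by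
    ext
    · simp only [Prod.fst_add, Prod.smul_fst, smul_eq_mul]
      field_simp
      ring
    · simp only [Prod.snd_add, Prod.smul_snd, smul_eq_mul]
      field_simp
      ring
  rw [← h3]
  exact h2

/-- area of a body in normal position -/
theorem vol_lower (K : Set (ℝ × ℝ)) (hK : Convex ℝ K) (hKm : MeasurableSet K)
    (hO : ((0, 0) : ℝ × ℝ) ∈ K) (hE : ((1, 0) : ℝ × ℝ) ∈ K) (hN : ((0, 1) : ℝ × ℝ) ∈ K)
    (hb : ∀ w ∈ K, w.1 ≤ 1 ∧ w.2 ≤ 1 ∧ 0 ≤ w.1 + w.2) (P Q R : ℝ × ℝ) (hP : P ∈ K) (hQ : Q ∈ K)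
    (hR : R ∈ K) (a b c : ℝ) (ha : 0 ≤ a) (hbb : 0 ≤ b) (hc : 0 ≤ c) (hPa : P.2 = -a)
    (hQb : Q.1 = -b) (hRc : R.1 + R.2 = 1 + c) :
    ENNReal.ofReal ((1 + a + b + c) / 2) ≤ volume K := by
  set S0 := K ∩ Tri with hS0
  set S1 := K ∩ {w | w.2 < 0} with hS1
  set S2 := K ∩ {w | w.1 < 0} with hS2
  set S3 := K ∩ {w | 1 < w.1 + w.2} with hS3
  have m1 : MeasurableSet S1 := hKm.inter (measurableSet_lt measurable_snd measurable_const)
  have m2 : MeasurableSet S2 := hKm.inter (measurableSet_lt measurable_fst measurable_const)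
  have m3 : MeasurableSet S3 :=
    hKm.inter (measurableSet_lt measurable_const (measurable_fst.add measurable_snd))
  have v0 : ENNReal.ofReal (1 / 2) ≤ volume S0 := by
    have := tri_vol S0 (0, 0) (1, 0) (0, 1) (fun x y hx hy hxy => by
      refine ⟨conv3 hK hO hE hN hx.le hy.le hxy.le, ?_⟩
      simp only [Tri, Set.mem_ofPred_eq]
      refine ⟨?_, ?_, ?_⟩ <;> linarith)
    have h1 : |dt (0, 0) (1, 0) (0, 1)| / 2 = 1 / 2 := by
      simp [dt]
    rwa [h1] at this
  have v1 : ENNReal.ofReal (a / 2) ≤ volume S1 := by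
    rcases ha.eq_or_lt with h | h
    · rw [← h]; simp
    have := tri_vol S1 (0, 0) (1, 0) P (fun x y hx hy hxy => by
      refine ⟨conv3 hK hO hE hP hx.le hy.le hxy.le, ?_⟩
      simp only [Set.mem_ofPred_eq, hPa]
      nlinarith)
    have h1 : |dt (0, 0) (1, 0) P| / 2 = a / 2 := by
      have : dt (0, 0) (1, 0) P = -a := by simp [dt, hPa]
      rw [this, abs_neg, abs_of_pos h]
    rwa [h1] at this
  have v2 : ENNReal.ofReal (b / 2) ≤ volume S2 := by
    rcases hbb.eq_or_lt with h | h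
    · rw [← h]; simp
    have := tri_vol S2 (0, 0) (0, 1) Q (fun x y hx hy hxy => by
      refine ⟨conv3 hK hO hN hQ hx.le hy.le hxy.le, ?_⟩
      simp only [Set.mem_ofPred_eq, hQb]
      nlinarith)
    have h1 : |dt (0, 0) (0, 1) Q| / 2 = b / 2 := by
      have : dt (0, 0) (0, 1) Q = b := by simp [dt, hQb]
      rw [this, abs_of_pos h]
    rwa [h1] at this
  have v3 : ENNReal.ofReal (c / 2) ≤ volume S3 := by
    rcases hc.eq_or_lt with h | h
    · rw [← h]; simp
    have := tri_vol S3 (1, 0) (0, 1) R (fun x y hx hy hxy => by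
      refine ⟨conv3 hK hE hN hR hx.le hy.le hxy.le, ?_⟩
      simp only [Set.mem_ofPred_eq]
      have h5 := mul_pos hy h
      have h6 : (R.1 + R.2) * y = (1 + c) * y := by rw [hRc]
      nlinarith)
    have h1 : |dt (1, 0) (0, 1) R| / 2 = c / 2 := by
      have : dt (1, 0) (0, 1) R = -c := by
        simp only [dt]
        linarith
      rw [this, abs_neg, abs_of_pos h]
    rwa [h1] at this
  have d01 : Disjoint S0 S1 := by
    rw [Set.disjoint_left]
    rintro w ⟨_, hw⟩ ⟨_, hw'⟩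
    simp only [Tri, Set.mem_ofPred_eq] at hw hw'
    linarith [hw.2.1]
  have d2 : Disjoint (S0 ∪ S1) S2 := by
    rw [Set.disjoint_left]
    rintro w (⟨hk, hw⟩ | ⟨hk, hw⟩) ⟨_, hw'⟩
    · simp only [Tri, Set.mem_ofPred_eq] at hw hw'
      linarith [hw.1]
    · simp only [Set.mem_ofPred_eq] at hw hw'
      linarith [(hb w hk).2.2]
  have d3 : Disjoint (S0 ∪ S1 ∪ S2) S3 := by
    rw [Set.disjoint_left]
    rintro w ((⟨hk, hw⟩ | ⟨hk, hw⟩) | ⟨hk, hw⟩) ⟨_, hw'⟩
    · simp only [Tri, Set.mem_ofPred_eq] at hw hw'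
      linarith [hw.2.2]
    · simp only [Set.mem_ofPred_eq] at hw hw'
      linarith [(hb w hk).1]
    · simp only [Set.mem_ofPred_eq] at hw hw'
      linarith [(hb w hk).2.1]
  calc ENNReal.ofReal ((1 + a + b + c) / 2)
      = ENNReal.ofReal (1 / 2) + ENNReal.ofReal (a / 2) + ENNReal.ofReal (b / 2) +
          ENNReal.ofReal (c / 2) := by
        rw [← ENNReal.ofReal_add (by norm_num) (by linarith),
          ← ENNReal.ofReal_add (by linarith) (by linarith),
          ← ENNReal.ofReal_add (by linarith) (by linarith)]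
        congr 1
        ring
    _ ≤ volume S0 + volume S1 + volume S2 + volume S3 := by gcongr
    _ = volume (S0 ∪ S1 ∪ S2 ∪ S3) := by
        rw [measure_union d3 m3, measure_union d2 m2, measure_union d01 m1]
    _ ≤ volume K := by
        apply measure_mono
        rintro w (((h | h) | h) | h) <;> exact h.1

end Pool.Agent.SmallClones
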