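import Mathlib
import Pool.Agent.SmallClones.Geo

set_option autoImplicit false

namespace Pool.Agent.SmallClones

open Finset MeasureTheory

/-- the numerical core: one of the two enclosing figures wastes little -/
theorem numeric (a b c : ℝ) (ha : 0 ≤ a) (hb : 0 ≤ b) (hac : a ≤ c) (hbc : b ≤ c)
    (h1 : c * (1 + a) ≤ 1) (h2 : c * (1 + b) ≤ 1) (h3 : 367 / 200 < 1 + a + b + c) :
    2 * ((1 + a) * (1 + b)) ≤ 367 / 200 * (1 + a + b + c) := by
  set m := (a + b) / 2 with hm
  have hm0 : 0 ≤ m := by rw [hm]; linarith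
  have hmc : m ≤ c := by rw [hm]; linarith
  have hcm : c * (1 + m) ≤ 1 := by rw [hm]; linarith
  have hprod : (1 + a) * (1 + b) ≤ (1 + m) ^ 2 := by
    rw [hm]; nlinarith [sq_nonneg (a - b)]
  have hsum : 1 + a + b + c = 1 + 2 * m + c := by rw [hm]; ring
  have hmm : m * (1 + m) ≤ 1 := by nlinarith
  have hmle : m ≤ 6181 / 10000 := by nlinarith
  rw [hsum] at h3 ⊢
  rcases le_or_gt (27 / 100) m with h | h
  · nlinarith
  · nlinarith

/-- the body in normal position, the largest overhang being opposite to the origin -/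
theorem normal_pk (K : Set (ℝ × ℝ)) (hK : Convex ℝ K) (hKc : IsCompact K)
    (hO : ((0, 0) : ℝ × ℝ) ∈ K) (hE : ((1, 0) : ℝ × ℝ) ∈ K) (hN : ((0, 1) : ℝ × ℝ) ∈ K)
    (hmax : ∀ A ∈ K, ∀ B ∈ K, ∀ C ∈ K, |dt A B C| ≤ 1) (P Q R : ℝ × ℝ) (hP : P ∈ K) (hQ : Q ∈ K)
    (hR : R ∈ K) (hPm : ∀ w ∈ K, P.2 ≤ w.2) (hQm : ∀ w ∈ K, Q.1 ≤ w.1)
    (hRm : ∀ w ∈ K, w.1 + w.2 ≤ R.1 + R.2) (h1 : 1 - R.1 - R.2 ≤ P.2)
    (h2 : 1 - R.1 - R.2 ≤ Q.1) : Pk (20 / 37) (1 / 2000000) K := by
  have hb : ∀ w ∈ K, -1 ≤ w.1 ∧ w.1 ≤ 1 ∧ -1 ≤ w.2 ∧ w.2 ≤ 1 ∧ 0 ≤ w.1 + w.2 := by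
    intro w hw
    have e1 := abs_le.mp (hmax _ hO _ hE _ hw)
    have e2 := abs_le.mp (hmax _ hO _ hN _ hw)
    have e3 := abs_le.mp (hmax _ hE _ hN _ hw)
    simp only [dt] at e1 e2 e3
    refine ⟨?_, ?_, ?_, ?_, ?_⟩ <;> linarith [e1.1, e1.2, e2.1, e2.2, e3.1, e3.2]
  set a := -P.2 with ha
  set b := -Q.1 with hbdef
  set c := R.1 + R.2 - 1 with hc
  have ha0 : 0 ≤ a := by
    have := hPm _ hO
    simp only at this
    linarith
  have hb0 : 0 ≤ b := by
    have := hQm _ hO
    simp only at this
    linarith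
  have hac : a ≤ c := by linarith
  have hbc : b ≤ c := by linarith
  have hc0 : 0 ≤ c := by linarith
  have bP := hb P hP
  have bQ := hb Q hQ
  have bR := hb R hR
  have i1 : c * (1 + a) ≤ 1 := by
    have := (abs_le.mp (hmax _ hP _ hR _ hN))
    simp only [dt] at this
    have hP2 : P.2 = -a := by rw [ha]; ring
    have hR1 : R.1 = 1 + c - R.2 := by rw [hc]; ring
    rw [hP2, hR1] at this
    rw [hP2] at bP
    nlinarith [mul_nonneg (sub_nonneg.mpr bR.2.2.2.1) (sub_nonneg.mpr bP.2.1),
      mul_nonneg (sub_nonneg.mpr bR.2.2.2.1) ha0]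
  have i2 : c * (1 + b) ≤ 1 := by
    have := (abs_le.mp (hmax _ hQ _ hR _ hE))
    simp only [dt] at this
    have hQ1 : Q.1 = -b := by rw [hbdef]; ring
    have hR2 : R.2 = 1 + c - R.1 := by rw [hc]; ring
    rw [hQ1, hR2] at this
    rw [hQ1] at bQ
    nlinarith [mul_nonneg (sub_nonneg.mpr bR.2.1) (sub_nonneg.mpr bQ.2.2.2.1),
      mul_nonneg (sub_nonneg.mpr bR.2.1) hb0]
  have hvol := vol_lower K hK hKc.measurableSet hO hE hN
    (fun w hw => ⟨(hb w hw).2.1, (hb w hw).2.2.2.1, (hb w hw).2.2.2.2⟩) P Q R hP hQ hR a b c ha0 hb0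
    hc0 (by rw [ha]; ring) (by rw [hbdef]; ring) (by rw [hc]; ring)
  have hc1 : c ≤ 1 := by nlinarith
  have hfin : volume K ≠ ⊤ := hKc.measure_lt_top.ne
  -- a small square in the triangle
  have hsq : ∀ x y : ℝ, 0 ≤ x → x ≤ 1 / 2 → 0 ≤ y → y ≤ 1 / 2 → ((x, y) : ℝ × ℝ) ∈ K := by
    intro x y hx hx' hy hy'
    have := conv3 hK hO hE hN hx hy (by linarith)
    simpa using this
  by_cases hcase : 1 + a + b + c ≤ 367 / 200
  · -- the big triangle
    set L := 1 + a + b + c with hL
    have hL1 : 1 ≤ L := by rw [hL]; linarith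
    have hdet : L * L - 0 * 0 ≠ 0 := by nlinarith
    set K2 : Set (ℝ × ℝ) := (fun w : ℝ × ℝ => (-b + L * w.1, -a + L * w.2)) ⁻¹' K with hK2
    have himg : (fun w => lin2 L 0 0 L hdet w + (-b, -a)) '' K2 = K := by
      have e : (fun w => lin2 L 0 0 L hdet w + (-b, -a)) =
          fun w : ℝ × ℝ => (-b + L * w.1, -a + L * w.2) := by
        funext w
        rw [lin2_apply]
        ext <;> simp <;> ring
      rw [e, hK2]
      apply Set.image_preimage_eq
      intro w
      refine ⟨((w.1 + b) / L, (w.2 + a) / L), ?_⟩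
      ext
      · simp only; field_simp; ring
      · simp only; field_simp; ring
    have hconv : Convex ℝ K2 := by
      intro v hv w hw s t hs ht hst
      have := hK hv hw hs ht hst
      rw [hK2, Set.mem_preimage]
      have e : ((-b + L * (s • v + t • w).1, -a + L * (s • v + t • w).2) : ℝ × ℝ) =
          s • (-b + L * v.1, -a + L * v.2) + t • (-b + L * w.1, -a + L * w.2) := by
        have hs' : s = 1 - t := by linarith
        ext
        · simp only [Prod.fst_add, Prod.smul_fst, smul_eq_mul]
          rw [hs']; ring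
        · simp only [Prod.snd_add, Prod.smul_snd, smul_eq_mul]
          rw [hs']; ring
      rw [e]
      exact this
    have hvolK2 : volume K = ENNReal.ofReal (L * L) * volume K2 := by
      have := volume_affine L 0 0 L (-b, -a) K2
      have e : (fun w : ℝ × ℝ => (((-b, -a) : ℝ × ℝ).1 + (L * w.1 + 0 * w.2),
          ((-b, -a) : ℝ × ℝ).2 + (0 * w.1 + L * w.2))) '' K2 = K := by
        rw [← himg]
        apply Set.image_congr
        intro w _
        rw [lin2_apply]
        ext <;> simp <;> ring
      rw [e] at this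
      rw [this]
      congr 2
      rw [abs_of_pos] <;> nlinarith
    have hvol2 : L / 2 ≤ L * L * (volume K2).toReal := by
      have e1 := ENNReal.toReal_mono hfin hvol
      rw [ENNReal.toReal_ofReal (by linarith), hvolK2, ENNReal.toReal_mul,
        ENNReal.toReal_ofReal (by nlinarith)] at e1
      exact e1
    have hvol3 : 1 / (2 * L) ≤ (volume K2).toReal := by
      rw [div_le_iff₀ (by linarith)]
      have : 0 ≤ (volume K2).toReal := ENNReal.toReal_nonneg
      nlinarith
    have hpk := core2 K2 hconv (fun w hw => by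
        rw [hK2, Set.mem_preimage] at hw
        have e1 := hPm _ hw
        have e2 := hQm _ hw
        have e3 := hRm _ hw
        simp only at e1 e2 e3
        refine ⟨?_, ?_, ?_⟩
        · have : 0 ≤ L * w.1 := by linarith
          exact nonneg_of_mul_nonneg_right this (by linarith)
        · have : 0 ≤ L * w.2 := by linarith
          exact nonneg_of_mul_nonneg_right this (by linarith)
        · have : L * (w.1 + w.2) ≤ L * 1 := by
            rw [hL] at e3 ⊢
            linarith
          exact le_of_mul_le_mul_left this (by linarith))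
      (((1 / 4 + b) / L, (1 / 4 + a) / L)) (1 / 8) (by norm_num) (fun d hd1 hd2 => by
        rw [hK2, Set.mem_preimage]
        have e1 := abs_le.mp hd1
        have e2 := abs_le.mp hd2
        have e3 : ((-b + L * (((1 / 4 + b) / L, (1 / 4 + a) / L) + d).1,
            -a + L * (((1 / 4 + b) / L, (1 / 4 + a) / L) + d).2) : ℝ × ℝ) =
            (1 / 4 + L * d.1, 1 / 4 + L * d.2) := by
          ext
          · simp only [Prod.fst_add]; field_simp; ring
          · simp only [Prod.snd_add]; field_simp; ring
        rw [e3]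
        apply hsq <;> nlinarith)
      (1 / 500) (by norm_num) (by norm_num) (100 / 367) (by norm_num) (by
        refine le_trans ?_ hvol3
        rw [div_le_div_iff₀ (by norm_num) (by linarith)]
        linarith)
      (1 / 2000000) (by norm_num) (by norm_num) (20 / 37) (by norm_num)
    have := hpk.map (lin2 L 0 0 L hdet) (-b, -a)
    rw [himg] at this
    exact this
  · push Not at hcase
    have hnum := numeric a b c ha0 hb0 hac hbc i1 i2 hcase
    set U := 1 + b with hU
    set V := 1 + a with hV
    have hU1 : 1 ≤ U := by rw [hU]; linarith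
    have hV1 : 1 ≤ V := by rw [hV]; linarith
    have hU2 : U ≤ 2 := by rw [hU]; linarith
    have hV2 : V ≤ 2 := by rw [hV]; linarith
    have hUV : 1 ≤ U * V := by nlinarith
    have hdet : U * V - 0 * 0 ≠ 0 := by nlinarith
    set K1 : Set (ℝ × ℝ) := (fun w : ℝ × ℝ => (-b + U * w.1, -a + V * w.2)) ⁻¹' K with hK1
    have himg : (fun w => lin2 U 0 0 V hdet w + (-b, -a)) '' K1 = K := by
      have e : (fun w => lin2 U 0 0 V hdet w + (-b, -a)) =
          fun w : ℝ × ℝ => (-b + U * w.1, -a + V * w.2) := by
        funext w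
        rw [lin2_apply]
        ext <;> simp <;> ring
      rw [e, hK1]
      apply Set.image_preimage_eq
      intro w
      refine ⟨((w.1 + b) / U, (w.2 + a) / V), ?_⟩
      ext
      · simp only; field_simp; ring
      · simp only; field_simp; ring
    have hconv : Convex ℝ K1 := by
      intro v hv w hw s t hs ht hst
      have := hK hv hw hs ht hst
      rw [hK1, Set.mem_preimage]
      have e : ((-b + U * (s • v + t • w).1, -a + V * (s • v + t • w).2) : ℝ × ℝ) =
          s • (-b + U * v.1, -a + V * v.2) + t • (-b + U * w.1, -a + V * w.2) := by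
        have hs' : s = 1 - t := by linarith
        ext
        · simp only [Prod.fst_add, Prod.smul_fst, smul_eq_mul]
          rw [hs']; ring
        · simp only [Prod.snd_add, Prod.smul_snd, smul_eq_mul]
          rw [hs']; ring
      rw [e]
      exact this
    have hvolK1 : volume K = ENNReal.ofReal (U * V) * volume K1 := by
      have := volume_affine U 0 0 V (-b, -a) K1
      have e : (fun w : ℝ × ℝ => (((-b, -a) : ℝ × ℝ).1 + (U * w.1 + 0 * w.2),
          ((-b, -a) : ℝ × ℝ).2 + (0 * w.1 + V * w.2))) '' K1 = K := by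
        rw [← himg]
        apply Set.image_congr
        intro w _
        rw [lin2_apply]
        ext <;> simp <;> ring
      rw [e] at this
      rw [this]
      congr 2
      rw [abs_of_pos] <;> nlinarith
    have hvol2 : (1 + a + b + c) / 2 ≤ U * V * (volume K1).toReal := by
      have e1 := ENNReal.toReal_mono hfin hvol
      rw [ENNReal.toReal_ofReal (by linarith), hvolK1, ENNReal.toReal_mul,
        ENNReal.toReal_ofReal (by nlinarith)] at e1
      exact e1
    have hvol3 : 200 / 367 ≤ (volume K1).toReal := by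
      by_contra hcon
      push Not at hcon
      have e1 : U * V * (volume K1).toReal < U * V * (200 / 367) :=
        mul_lt_mul_of_pos_left hcon (by linarith)
      have e2 : 2 * (V * U) ≤ 367 / 200 * (1 + a + b + c) := hnum
      nlinarith
    have hpk := core1 K1 hconv (fun w hw => by
        rw [hK1, Set.mem_preimage] at hw
        have e1 := hPm _ hw
        have e2 := hQm _ hw
        have e3 := hb _ hw
        simp only at e1 e2 e3
        refine ⟨?_, ?_, ?_, ?_⟩
        · have : 0 ≤ U * w.1 := by linarith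
          exact nonneg_of_mul_nonneg_right this (by linarith)
        · have : U * w.1 ≤ U * 1 := by
            rw [hU] at e3 ⊢
            linarith [e3.2.1]
          exact le_of_mul_le_mul_left this (by linarith)
        · have : 0 ≤ V * w.2 := by linarith
          exact nonneg_of_mul_nonneg_right this (by linarith)
        · have : V * w.2 ≤ V * 1 := by
            rw [hV] at e3 ⊢
            linarith [e3.2.2.2.1]
          exact le_of_mul_le_mul_left this (by linarith))
      (((1 / 4 + b) / U, (1 / 4 + a) / V)) (1 / 8) (by norm_num) (fun d hd1 hd2 => by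
        rw [hK1, Set.mem_preimage]
        have e1 := abs_le.mp hd1
        have e2 := abs_le.mp hd2
        have e3 : ((-b + U * (((1 / 4 + b) / U, (1 / 4 + a) / V) + d).1,
            -a + V * (((1 / 4 + b) / U, (1 / 4 + a) / V) + d).2) : ℝ × ℝ) =
            (1 / 4 + U * d.1, 1 / 4 + V * d.2) := by
          ext
          · simp only [Prod.fst_add]; field_simp; ring
          · simp only [Prod.snd_add]; field_simp; ring
        rw [e3]
        apply hsq <;> nlinarith)
      (1 / 500) (by norm_num) (by norm_num) (200 / 367) (by norm_num) hvol3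
      (1 / 2000000) (by norm_num) (by norm_num) (20 / 37) (by norm_num)
    have := hpk.map (lin2 U 0 0 V hdet) (-b, -a)
    rw [himg] at this
    exact this

end Pool.Agent.SmallClones
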