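import Mathlib
import Pool.Agent.SmallClones.Main

set_option autoImplicit false

namespace Pool.Agent.SmallClones

open Finset MeasureTheory

/-- the labelled version: `A, B, C` is a positively oriented triangle of maximal area, and the
overhang of `K` opposite to `A` is the largest one. -/
theorem labelled (K : Set (ℝ × ℝ)) (hK : Convex ℝ K) (hKc : IsCompact K) (A B C : ℝ × ℝ)
    (hA : A ∈ K) (hB : B ∈ K) (hC : C ∈ K) (hpos : 0 < dt A B C)
    (hmax : ∀ X ∈ K, ∀ Y ∈ K, ∀ Z ∈ K, |dt X Y Z| ≤ dt A B C) (PA PB PC : ℝ × ℝ)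
    (hPA : PA ∈ K) (hPB : PB ∈ K) (hPC : PC ∈ K)
    (mA : ∀ w ∈ K, dt PA B C ≤ dt w B C) (mB : ∀ w ∈ K, dt A PB C ≤ dt A w C)
    (mC : ∀ w ∈ K, dt A B PC ≤ dt A B w) (hAB : dt PA B C ≤ dt A PB C)
    (hAC : dt PA B C ≤ dt A B PC) : Pk (20 / 37) (1 / 2000000) K := by
  set D := dt A B C with hD
  have hdet : (B.1 - A.1) * (C.2 - A.2) - (C.1 - A.1) * (B.2 - A.2) ≠ 0 := by
    have : (B.1 - A.1) * (C.2 - A.2) - (C.1 - A.1) * (B.2 - A.2) = D := by
      rw [hD]; unfold dt; ring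
    rw [this]; exact hpos.ne'
  set L := lin2 (B.1 - A.1) (C.1 - A.1) (B.2 - A.2) (C.2 - A.2) hdet with hL
  set ψ : ℝ × ℝ → ℝ × ℝ := fun w => L w + A with hψ
  have ψ1 : ∀ w, (ψ w).1 = (B.1 - A.1) * w.1 + (C.1 - A.1) * w.2 + A.1 := fun w => rfl
  have ψ2 : ∀ w, (ψ w).2 = (B.2 - A.2) * w.1 + (C.2 - A.2) * w.2 + A.2 := fun w => rfl
  -- areas scale
  have hdt : ∀ X Y Z, dt (ψ X) (ψ Y) (ψ Z) = D * dt X Y Z := by
    intro X Y Z
    rw [hD]
    unfold dt
    rw [ψ1, ψ1, ψ1, ψ2, ψ2, ψ2]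
    ring
  have hψO : ψ (0, 0) = A := by ext <;> simp [ψ1, ψ2]
  have hψE : ψ (1, 0) = B := by ext <;> simp [ψ1, ψ2]
  have hψN : ψ (0, 1) = C := by ext <;> simp [ψ1, ψ2]
  -- coordinates
  have hu : ∀ w, dt A (ψ w) C = D * w.1 := by
    intro w
    rw [← hψO, ← hψN, hdt]
    simp only [dt]
    ring
  have hv : ∀ w, dt A B (ψ w) = D * w.2 := by
    intro w
    rw [← hψO, ← hψE, hdt]
    simp only [dt]
    ring
  have ho : ∀ w, dt (ψ w) B C = D * (1 - w.1 - w.2) := by
    intro w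
    rw [← hψE, ← hψN, hdt]
    simp only [dt]
    ring
  let φ : (ℝ × ℝ) ≃ₜ (ℝ × ℝ) := L.toHomeomorph.trans (Homeomorph.addRight A)
  have hφ : ∀ y, φ y = ψ y := fun y => rfl
  have hsurj : ∀ w, ψ (φ.symm w) = w := fun w => by rw [← hφ, Homeomorph.apply_symm_apply]
  set K0 : Set (ℝ × ℝ) := ψ ⁻¹' K with hK0
  have himg : ψ '' K0 = K := by
    apply Set.image_preimage_eq
    intro w
    exact ⟨φ.symm w, hsurj w⟩
  have hconv : Convex ℝ K0 := by
    intro v hv w hw s t hs ht hst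
    have := hK hv hw hs ht hst
    rw [hK0, Set.mem_preimage]
    have e : ψ (s • v + t • w) = s • ψ v + t • ψ w := by
      have hs' : s = 1 - t := by linarith
      simp only [hψ, map_add, map_smul, smul_add]
      rw [hs']
      module
    rw [e]
    exact this
  have hcomp : IsCompact K0 := by
    have : K0 = φ ⁻¹' K := rfl
    rw [this]
    exact (Homeomorph.isCompact_preimage φ).mpr hKc
  have hmem : ∀ w, w ∈ K0 ↔ ψ w ∈ K := fun w => Iff.rfl
  have hle : ∀ {x y : ℝ}, D * x ≤ D * y → x ≤ y := fun h => le_of_mul_le_mul_left h hpos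
  have key := normal_pk K0 hconv hcomp ((hmem _).mpr (by rw [hψO]; exact hA))
    ((hmem _).mpr (by rw [hψE]; exact hB)) ((hmem _).mpr (by rw [hψN]; exact hC))
    (fun X hX Y hY Z hZ => by
      have := hmax _ hX _ hY _ hZ
      rw [hdt, abs_mul, abs_of_pos hpos] at this
      apply hle
      rw [mul_one]
      exact this)
    (φ.symm PC) (φ.symm PB) (φ.symm PA) ((hmem _).mpr (by rw [hsurj]; exact hPC))
    ((hmem _).mpr (by rw [hsurj]; exact hPB)) ((hmem _).mpr (by rw [hsurj]; exact hPA))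
    (fun w hw => by
      apply hle
      rw [← hv, ← hv, hsurj]
      exact mC _ hw)
    (fun w hw => by
      apply hle
      rw [← hu, ← hu, hsurj]
      exact mB _ hw)
    (fun w hw => by
      have : 1 - (φ.symm PA).1 - (φ.symm PA).2 ≤ 1 - w.1 - w.2 := by
        apply hle
        rw [← ho, ← ho, hsurj]
        exact mA _ hw
      linarith)
    (by
      apply hle
      rw [← ho, ← hv, hsurj, hsurj]
      exact hAC)
    (by
      apply hle
      rw [← ho, ← hu, hsurj, hsurj]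
      exact hAB)
  have := key.map L A
  have h2 : (fun y => L y + A) '' K0 = K := himg
  rw [h2] at this
  exact this

theorem dt_cyc (A B C : ℝ × ℝ) : dt B C A = dt A B C := by
  unfold dt; ring

theorem dt_swap (A B C : ℝ × ℝ) : dt A C B = -dt A B C := by
  unfold dt; ring

theorem continuous_dt : Continuous fun x : (ℝ × ℝ) × (ℝ × ℝ) × (ℝ × ℝ) => dt x.1 x.2.1 x.2.2 := by
  unfold dt
  fun_prop

/-- the theorem for bodies in `ℝ × ℝ` -/
theorem plane (K : Set (ℝ × ℝ)) (hK : Convex ℝ K) (hKc : IsCompact K)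
    (hint : (interior K).Nonempty) : Pk (20 / 37) (1 / 2000000) K := by
  -- a nondegenerate triangle
  obtain ⟨z, hz⟩ := hint
  obtain ⟨ρ, hρ, hball⟩ := Metric.isOpen_iff.mp isOpen_interior z hz
  have hzK : ∀ x y : ℝ, |x| < ρ → |y| < ρ → z + (x, y) ∈ K := by
    intro x y hx hy
    apply interior_subset
    apply hball
    rw [Metric.mem_ball, dist_self_add_left, Prod.norm_def]
    simp only [Real.norm_eq_abs]
    exact max_lt hx hy
  have hKne : K.Nonempty := ⟨z, interior_subset hz⟩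
  obtain ⟨T, hT, hTmax⟩ := (hKc.prod (hKc.prod hKc)).exists_isMaxOn
    (hKne.prod (hKne.prod hKne)) (f := fun x : (ℝ × ℝ) × (ℝ × ℝ) × (ℝ × ℝ) =>
      |dt x.1 x.2.1 x.2.2|) (continuous_dt.abs.continuousOn)
  have hTm : ∀ X ∈ K, ∀ Y ∈ K, ∀ Z ∈ K, |dt X Y Z| ≤ |dt T.1 T.2.1 T.2.2| := by
    intro X hX Y hY Z hZ
    exact hTmax (show (X, Y, Z) ∈ K ×ˢ K ×ˢ K from ⟨hX, hY, hZ⟩)
  have hTne : dt T.1 T.2.1 T.2.2 ≠ 0 := by
    intro h0
    have hlt : |ρ / 2| < ρ := by rw [abs_of_pos (by linarith)]; linarith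
    have h1 := hTm (z + (0, 0)) (hzK 0 0 (by simpa using hρ) (by simpa using hρ))
      (z + (ρ / 2, 0)) (hzK _ _ hlt (by simpa using hρ))
      (z + (0, ρ / 2)) (hzK _ _ (by simpa using hρ) hlt)
    rw [h0, abs_zero] at h1
    have h2 : dt (z + (0, 0)) (z + (ρ / 2, 0)) (z + (0, ρ / 2)) = (ρ / 2) ^ 2 := by
      simp only [dt, Prod.fst_add, Prod.snd_add]
      ring
    rw [h2] at h1
    have : 0 < |(ρ / 2) ^ 2| := abs_pos.mpr (by positivity)
    linarith
  -- orientation
  obtain ⟨A, B, C, hA, hB, hC, hpos, hmax⟩ : ∃ A B C : ℝ × ℝ, A ∈ K ∧ B ∈ K ∧ C ∈ K ∧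
      0 < dt A B C ∧ ∀ X ∈ K, ∀ Y ∈ K, ∀ Z ∈ K, |dt X Y Z| ≤ dt A B C := by
    rcases lt_or_gt_of_ne hTne with h | h
    · refine ⟨T.1, T.2.2, T.2.1, hT.1, hT.2.2, hT.2.1, ?_, ?_⟩
      · rw [dt_swap]; linarith
      · intro X hX Y hY Z hZ
        have := hTm X hX Y hY Z hZ
        rw [abs_of_neg h] at this
        rw [dt_swap T.1 T.2.1 T.2.2]
        exact this
    · refine ⟨T.1, T.2.1, T.2.2, hT.1, hT.2.1, hT.2.2, h, ?_⟩
      intro X hX Y hY Z hZ
      have := hTm X hX Y hY Z hZ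
      rw [abs_of_pos h] at this
      exact this
  -- extreme points
  obtain ⟨PA, hPA, mA⟩ := hKc.exists_isMinOn hKne (f := fun w => dt w B C)
    (by unfold dt; fun_prop)
  obtain ⟨PB, hPB, mB⟩ := hKc.exists_isMinOn hKne (f := fun w => dt A w C)
    (by unfold dt; fun_prop)
  obtain ⟨PC, hPC, mC⟩ := hKc.exists_isMinOn hKne (f := fun w => dt A B w)
    (by unfold dt; fun_prop)
  have mA' : ∀ w ∈ K, dt PA B C ≤ dt w B C := fun w hw => mA hw
  have mB' : ∀ w ∈ K, dt A PB C ≤ dt A w C := fun w hw => mB hw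
  have mC' : ∀ w ∈ K, dt A B PC ≤ dt A B w := fun w hw => mC hw
  by_cases h1 : dt PA B C ≤ dt A PB C ∧ dt PA B C ≤ dt A B PC
  · exact labelled K hK hKc A B C hA hB hC hpos hmax PA PB PC hPA hPB hPC mA' mB' mC' h1.1 h1.2
  · by_cases h2 : dt A PB C ≤ dt PA B C ∧ dt A PB C ≤ dt A B PC
    · -- relabel (B, C, A)
      have e1 : ∀ w, dt w C A = dt A w C := fun w => dt_cyc A w C
      have e2 : ∀ w, dt B w A = dt A B w := fun w => dt_cyc A B w
      have e3 : ∀ w, dt B C w = dt w B C := fun w => dt_cyc w B C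
      apply labelled K hK hKc B C A hB hC hA (by rw [dt_cyc]; exact hpos)
        (by rw [dt_cyc]; exact hmax) PB PC PA hPB hPC hPA
      · intro w hw; rw [e1, e1]; exact mB' w hw
      · intro w hw; rw [e2, e2]; exact mC' w hw
      · intro w hw; rw [e3, e3]; exact mA' w hw
      · rw [e1, e2]; exact h2.2
      · rw [e1, e3]; exact h2.1
    · -- relabel (C, A, B)
      have e1 : ∀ w, dt w A B = dt A B w := fun w => (dt_cyc w A B).symm
      have e2 : ∀ w, dt C w B = dt w B C := fun w => (dt_cyc C w B).symm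
      have e3 : ∀ w, dt C A w = dt A w C := fun w => (dt_cyc C A w).symm
      have h3 : dt A B PC ≤ dt PA B C ∧ dt A B PC ≤ dt A PB C := by
        by_contra hcon
        rw [not_and_or] at h1 h2 hcon
        rcases h1 with h1 | h1 <;> rcases h2 with h2 | h2 <;> rcases hcon with h3 | h3 <;>
          push Not at h1 h2 h3 <;> linarith
      apply labelled K hK hKc C A B hC hA hB (by rw [e3]; exact hpos)
        (by rw [e3]; exact hmax) PC PA PB hPC hPA hPB
      · intro w hw; rw [e1, e1]; exact mC' w hw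
      · intro w hw; rw [e2, e2]; exact mA' w hw
      · intro w hw; rw [e3, e3]; exact mB' w hw
      · rw [e1, e2]; exact h3.1
      · rw [e1, e3]; exact h3.2

/-- the Euclidean plane -/
theorem euclid (F : Set (EuclideanSpace ℝ (Fin 2))) (hF : Convex ℝ F) (hFc : IsCompact F)
    (hint : (interior F).Nonempty) : Pk (20 / 37) (1 / 2000000) F := by
  let e1 : EuclideanSpace ℝ (Fin 2) ≃L[ℝ] (Fin 2 → ℝ) := EuclideanSpace.equiv (Fin 2) ℝ
  let e2 : (Fin 2 → ℝ) ≃L[ℝ] (ℝ × ℝ) := ContinuousLinearEquiv.finTwoArrow ℝ ℝ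
  let L : EuclideanSpace ℝ (Fin 2) ≃L[ℝ] (ℝ × ℝ) := e1.trans e2
  have hconv : Convex ℝ (L '' F) := hF.linear_image (L : EuclideanSpace ℝ (Fin 2) →ₗ[ℝ] (ℝ × ℝ))
  have hcomp : IsCompact (L '' F) := hFc.image L.continuous
  have hi : (interior (L '' F)).Nonempty := by
    have : L '' F = L.toHomeomorph '' F := rfl
    rw [this, ← Homeomorph.image_interior]
    exact hint.image _
  have h1 := (plane (L '' F) hconv hcomp hi).map L.symm 0
  have h2 : (fun y => L.symm y + 0) '' (L '' F) = F := by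
    rw [Set.image_image]
    simp
  rw [h2] at h1
  exact h1

/-- Final form. -/
theorem small_clones (F : Set (EuclideanSpace ℝ (Fin 2))) (hFc : IsCompact F) (hF : Convex ℝ F)
    (hint : (interior F).Nonempty) (n : ℕ) (r : Fin n → ℝ) (hr : ∀ i, 0 < r i)
    (hsmall : ∀ i, r i ^ 2 * (volume F).toReal ≤ 1 / 10 ^ 13)
    (htot : (∑ i, r i ^ 2) * (volume F).toReal ≤ 1) :
    ∃ s : ℝ, 0 < s ∧ s ^ 2 * (volume F).toReal = 37 / 20 ∧
      ∃ (e : Fin n → ℝ) (b : Fin n → EuclideanSpace ℝ (Fin 2)), (∀ i, e i = 1 ∨ e i = -1) ∧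
        (∀ i, (fun x => (e i * r i) • x + b i) '' F ⊆ (fun x => s • x) '' F) ∧
        ∀ i j, i ≠ j → Disjoint (interior ((fun x => (e i * r i) • x + b i) '' F))
          (interior ((fun x => (e j * r j) • x + b j) '' F)) := by
  have hv0 : 0 < (volume F).toReal := by
    rw [ENNReal.toReal_pos_iff]
    refine ⟨?_, hFc.measure_lt_top⟩
    exact lt_of_lt_of_le (isOpen_interior.measure_pos volume hint) (measure_mono interior_subset)
  set v := (volume F).toReal with hv
  set s := Real.sqrt (37 / 20 / v) with hs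
  have hs2 : s ^ 2 = 37 / 20 / v := Real.sq_sqrt (by positivity)
  have hs0 : 0 < s := Real.sqrt_pos.mpr (by positivity)
  have hsv : s ^ 2 * v = 37 / 20 := by rw [hs2]; field_simp
  have hscale : ∀ t : ℝ, t / s ^ 2 = t * v / (37 / 20) := by
    intro t
    rw [hs2]
    field_simp
  obtain ⟨e, b, he, hb, hd⟩ := euclid F hF hFc hint n (fun i => r i / s)
    (fun i => div_pos (hr i) hs0) (fun i => by
      have h1 : (r i / s) ^ 2 ≤ (1 / 2000000) ^ 2 := by
        rw [div_pow, hscale]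
        rw [div_le_iff₀ (by norm_num)]
        have := hsmall i
        norm_num at this ⊢
        linarith
      exact (pow_le_pow_iff_left₀ (div_pos (hr i) hs0).le (by norm_num) two_ne_zero).mp h1)
    (by
      have : ∑ i, (r i / s) ^ 2 = (∑ i, r i ^ 2) * v / (37 / 20) := by
        rw [← hscale, Finset.sum_div]
        apply Finset.sum_congr rfl
        intro i _
        rw [div_pow]
      rw [this, div_le_iff₀ (by norm_num)]
      linarith)
  have himg : ∀ i, (fun x => (e i * r i) • x + s • b i) '' F =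
      (fun x => s • x) '' ((fun y => (e i * (r i / s)) • y + b i) '' F) := by
    intro i
    rw [Set.image_image]
    apply Set.image_congr
    intro x _
    rw [smul_add, smul_smul]
    congr 2
    field_simp
  refine ⟨s, hs0, hsv, e, fun i => s • b i, he, ?_, ?_⟩
  · intro i
    rw [himg]
    exact Set.image_mono (hb i)
  · intro i j hij
    have hh : (fun x : EuclideanSpace ℝ (Fin 2) => s • x) = Homeomorph.smulOfNeZero s hs0.ne' := rfl
    rw [himg, himg, hh, ← Homeomorph.image_interior, ← Homeomorph.image_interior,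
      Set.disjoint_image_iff (Homeomorph.injective _)]
    exact hd i j hij

end Pool.Agent.SmallClones
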